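import Pool.Agent.N795.ST.Bas
import Pool.Agent.N795.ST.Tor
import Pool.Agent.TH268.PD.MF

/-!
# Spread-out long range stirring: statements
-/

set_option autoImplicit false

namespace Pool.Agent.N795.SO

open Finset Equiv Filter Topology
open Pool.Agent.W805.LR (len)
open Pool.Agent.TH268.PD (law lap dlap)
open Pool.Agent.N795.ST (mn tr disp nrm)

/-- Poincaré inequality for the law of stirring, for finitely many functions -/
def Vari : Prop := ∀ (V ι : Type) [Fintype V] [DecidableEq V] [Fintype ι] (J : V → V → ℝ)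
  (t G : ℝ) (F : ι → Perm V → ℝ), (∀ x y, 0 ≤ J x y) → 0 ≤ t →
    (∀ g₁ g₂ : Perm V,
      ∑ i, ∑ x, ∑ y, J x y / 2 * (F i (g₁ * swap x y * g₂) - F i (g₁ * g₂)) ^ 2 ≤ G) →
    ∑ i, mn J t (fun g => (F i g - mn J t (F i)) ^ 2) ≤ t * G

/-- Kolmogorov's equation -/
def Kol : Prop := ∀ (V : Type) [Fintype V] [DecidableEq V] (J : V → V → ℝ) (t : ℝ)
  (F : Perm V → ℝ), HasDerivAt (fun s => mn J s F)
    (mn J t (fun g => ∑ x, ∑ y, J x y / 2 * (F (g * swap x y) - F g))) t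

/-- the effect of a transposition on `lap` -/
def Det1 : Prop := ∀ (V : Type) [Fintype V] [DecidableEq V] [Nonempty V] (J : V → V → ℝ)
  (ε h : ℝ) (g : Perm V), (∀ x y, 0 ≤ J x y) → (∀ x y, J x y = J y x) → (∀ x y, J x y ≤ ε) →
    0 < h →
    |∑ x, ∑ y, J x y / 2 * (lap h (g * swap x y) - lap h g) -
      (∑ x, ∑ y, J x y * (len g x * Real.exp (-(h * len g x)) *
        (1 - Real.exp (-(h * len g y))))) / Fintype.card V| ≤ 4 * ε / h ^ 2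

/-- the total effect of a transposition on the Laplace transforms -/
def Ell : Prop := ∀ (V : Type) [Fintype V] [DecidableEq V] (h : ℝ) (g : Perm V) (u v : V),
  0 < h → ∑ y, |Real.exp (-(h * len (g * swap u v) y)) - Real.exp (-(h * len g y))| ≤ 2 / h

/-- the Burgers equation with a small error -/
def Pde : Prop := ∀ (V : Type) [Fintype V] [DecidableEq V] [Nonempty V] (J : V → V → ℝ)
  (ε S t h : ℝ), (∀ x y, 0 ≤ J x y) → (∀ x y, J x y = J y x) → (∀ x y, J x y ≤ ε) →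
    (∀ x, ∑ y, J x y = S) →
    (∀ x y, mn J t (fun g => Real.exp (-(h * len g x))) =
      mn J t (fun g => Real.exp (-(h * len g y)))) → 0 ≤ t → 0 < h →
    |mn J t (fun g => ∑ x, ∑ y, J x y / 2 * (lap h (g * swap x y) - lap h g)) -
      S * mn J t (lap h) * mn J t (dlap h)| ≤ (4 * ε + 2 * S * Real.sqrt (t * ε)) / h ^ 2

/-- the solution of the Burgers equation with a small error -/
def Burg : Prop := ∀ (T S η h₀ : ℝ) (F Ft Fh : ℝ → ℝ → ℝ), 0 ≤ T → 0 ≤ S → 0 ≤ η → 0 < h₀ →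
  (∀ t h, 0 ≤ t → t ≤ T → h₀ ≤ h → 1 - Real.exp (-h) ≤ F t h ∧ F t h ≤ 1) →
  (∀ h, h₀ ≤ h → F 0 h = 1 - Real.exp (-h)) →
  (∀ t h, 0 ≤ t → t ≤ T → h₀ ≤ h → HasDerivAt (fun s => F s h) (Ft t h) t) →
  (∀ t h, 0 ≤ t → t ≤ T → h₀ ≤ h → HasDerivAt (fun x => F t x) (Fh t h) h) →
  Continuous (fun p : ℝ × ℝ => F p.1 p.2) →
  (∀ t h, 0 ≤ t → t ≤ T → h₀ ≤ h → |Ft t h - S * F t h * Fh t h| ≤ η) →
  ∀ t h, 0 ≤ t → t ≤ T → h₀ ≤ h →
    |F t h - (1 - Real.exp (-(h + S * t * F t h)))| ≤ (1 + S * T) * T * η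

/-- the mass of the giant component: the largest solution in `[0, 1]` of `x = 1 - exp (- u x)` -/
noncomputable def giant (u : ℝ) : ℝ :=
  sSup {x : ℝ | 0 ≤ x ∧ x ≤ 1 ∧ x = 1 - Real.exp (-(u * x))}

/-- facts about `giant` -/
def Root : Prop :=
  (∀ u : ℝ, 0 ≤ u → 0 ≤ giant u ∧ giant u ≤ 1 ∧ giant u = 1 - Real.exp (-(u * giant u)) ∧
    ∀ x, 0 ≤ x → x ≤ 1 → x = 1 - Real.exp (-(u * x)) → x ≤ giant u) ∧
  (∀ u : ℝ, 0 ≤ u → u ≤ 1 → giant u = 0) ∧ (∀ u : ℝ, 1 < u → 0 < giant u) ∧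
  (∀ u u' : ℝ, 0 ≤ u → u ≤ u' → giant u ≤ giant u') ∧
  (∀ δ : ℝ, 0 < δ → ∃ U : ℝ, 0 < U ∧ ∀ u, U ≤ u → 1 - δ ≤ giant u) ∧
  (∀ u h r F : ℝ, 0 ≤ u → 0 < h → 0 ≤ F → F ≤ 1 → 1 - Real.exp (-(h + u * F)) ≤ F + r →
    r < (1 - Real.exp (-h)) * Real.exp (-u) → giant u ≤ F) ∧
  (∀ u r δ F : ℝ, 0 ≤ u → 0 < δ → 0 ≤ F → F ≤ 1 → F ≤ 1 - Real.exp (-(u * F)) + r →
    r < δ - 1 + Real.exp (-δ) → F ≤ giant u + δ)

/-- all points of the torus are equivalent -/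
def Trans : Prop := ∀ (d M : ℕ) [NeZero M] (J : (Fin d → ℤ) → ℝ) (t : ℝ) (φ : ℝ → ℝ)
  (x y : Fin d → ZMod M), mn (tr J) t (fun g => φ (len g x)) = mn (tr J) t (fun g => φ (len g y))

/-- the row sums of the rates on the torus -/
def Row : Prop := ∀ (d : ℕ) (J : (Fin d → ℤ) → ℝ) (S : ℝ), 1 ≤ d → (∀ z, z ≠ 0 → 0 ≤ J z) →
  HasSum (fun z : {z : Fin d → ℤ // z ≠ 0} => J z) S →
    ∃ s : ℕ → ℝ, Tendsto s atTop (𝓝 S) ∧ (∀ n, 0 ≤ s n ∧ s n ≤ S) ∧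
      ∀ (n : ℕ) [NeZero n] (x : Fin d → ZMod n), ∑ y, tr J x y = s n

end Pool.Agent.N795.SO
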