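import Pool.Agent.N795.SO.Win
import Pool.Agent.N795.SO.Stm
import Pool.Agent.N795.LN.Fin
import Pool.Agent.N795.LN.Loc
import Pool.Agent.TH268.PD.Func
import Pool.Agent.TH268.PD.Fix

/-!
# Spread-out long range stirring: the mass of the macroscopic cycles is close to the mean field mass
-/

set_option autoImplicit false

namespace Pool.Agent.N795.SO

open Finset Equiv Filter Topology
open Pool.Agent.W805.LR (len cnt one_le_len)
open Pool.Agent.TH268.PD (law mas lap dlap lap_low lap_le_one)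
open Pool.Agent.N795.ST
open Pool.Agent.N795.LN

section det

variable {V : Type} [Fintype V] [DecidableEq V]

theorem lap_le_mas [Nonempty V] {K h : ℝ} (hK : 0 ≤ K) (hh : 0 ≤ h) (g : Perm V) :
    lap h g ≤ mas K g + h * K := by
  have hN : (0 : ℝ) < Fintype.card V := by exact_mod_cast Fintype.card_pos
  unfold lap mas cnt
  rw [div_add' _ _ _ hN.ne', div_le_div_iff_of_pos_right hN]
  have e1 : h * K * (Fintype.card V : ℝ) = ∑ _v : V, h * K := by
    rw [Finset.sum_const, Finset.card_univ, nsmul_eq_mul]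
    ring
  rw [e1, ← Finset.sum_add_distrib]
  refine Finset.sum_le_sum fun v _ => ?_
  have h1 : 0 ≤ h * K := mul_nonneg hh hK
  split_ifs with hv
  · have := Real.exp_pos (-(h * len g v))
    linarith
  · rw [not_le] at hv
    have h2 := Real.add_one_le_exp (-(h * len g v))
    have h3 : h * len g v ≤ h * K := mul_le_mul_of_nonneg_left hv.le hh
    linarith

theorem mas_le_lap [Nonempty V] {K h : ℝ} (hh : 0 ≤ h) (g : Perm V) :
    (1 - Real.exp (-(h * K))) * mas K g ≤ lap h g := by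
  have hN : (0 : ℝ) < Fintype.card V := by exact_mod_cast Fintype.card_pos
  unfold lap mas cnt
  rw [← mul_div_assoc, div_le_div_iff_of_pos_right hN, Finset.mul_sum]
  refine Finset.sum_le_sum fun v _ => ?_
  have h0 : 0 ≤ len g v := zero_le_one.trans (one_le_len g v)
  split_ifs with hv
  · rw [mul_one]
    have h3 : h * K ≤ h * len g v := mul_le_mul_of_nonneg_left hv hh
    have h4 : Real.exp (-(h * len g v)) ≤ Real.exp (-(h * K)) := Real.exp_le_exp.2 (by linarith)
    linarith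
  · rw [mul_zero]
    have : Real.exp (-(h * len g v)) ≤ 1 := Real.exp_le_one_iff.2 (by
      have := mul_nonneg hh h0
      linarith)
    linarith

theorem mas_one_eq [Nonempty V] (g : Perm V) : mas 1 g = 1 := by
  have hN : (0 : ℝ) < Fintype.card V := by exact_mod_cast Fintype.card_pos
  unfold mas cnt
  rw [div_eq_one_iff_eq hN.ne']
  have e1 : ∀ v : V, (if 1 ≤ len g v then (1 : ℝ) else 0) = 1 := fun v => if_pos (one_le_len g v)
  simp only [e1]
  rw [Finset.sum_const, Finset.card_univ, nsmul_eq_mul, mul_one]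

theorem law_zero (J : V → V → ℝ) (g : Perm V) : law J 0 g = if g = 1 then 1 else 0 := by
  unfold law
  rw [Pool.Agent.W805.LR.sum_mass, zero_mul, Real.exp_zero, div_one]
  unfold Pool.Agent.W805.LR.stirMass
  rw [tsum_eq_single 0]
  · simp [Pool.Agent.W805.LR.ringSum]
  · intro m hm
    rw [zero_pow hm, zero_div, zero_mul]

theorem mn_zero (J : V → V → ℝ) (F : Perm V → ℝ) : mn J 0 F = F 1 := by
  unfold mn
  simp only [law_zero]
  simp

theorem len_one' (v : V) : len (1 : Perm V) v = 1 := by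
  unfold len cnt
  rw [Finset.sum_eq_single v]
  · exact if_pos (Perm.SameCycle.refl _ _)
  · intro w _ hw
    refine if_neg ?_
    rintro ⟨i, hi⟩
    rw [one_zpow, Perm.one_apply] at hi
    exact hw hi.symm
  · intro h
    exact absurd (mem_univ v) h

theorem lap_one [Nonempty V] (h : ℝ) : lap h (1 : Perm V) = 1 - Real.exp (-h) := by
  have hN : (0 : ℝ) < Fintype.card V := by exact_mod_cast Fintype.card_pos
  unfold lap
  simp only [len_one', mul_one]
  rw [Finset.sum_const, Finset.card_univ, nsmul_eq_mul]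
  field_simp

end det

section

variable {d : ℕ} {σ lam S R : ℝ} {J : (Fin d → ℤ) → ℝ}

theorem tr_le {ε : ℝ} (hε : 0 ≤ ε) (hup : ∀ z : Fin d → ℤ, z ≠ 0 → J z ≤ ε) {M : ℕ}
    (x y : Fin d → ZMod M) : tr J x y ≤ ε := by
  unfold tr
  split_ifs with hxy
  · exact hε
  · have h1 := hup (disp x y) (fun h' => hxy ((disp_eq_zero x y).1 h'))
    have h2 := hup (disp y x) (fun h' => hxy ((disp_eq_zero y x).1 h').symm)
    linarith

/-- the error -/
noncomputable def er (S T ε h₀ : ℝ) : ℝ :=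
  (1 + S * T) * T * ((4 * ε + 2 * S * Real.sqrt (T * ε)) / h₀ ^ 2)

theorem fin_vol (hKol : Kol) (hPde : Pde) (hBurg : Burg) (hTrans : Trans)
    (hJ : ∀ z : Fin d → ℤ, z ≠ 0 → 0 ≤ J z) {ε : ℝ} (hε : 0 ≤ ε)
    (hup : ∀ z : Fin d → ℤ, z ≠ 0 → J z ≤ ε) (n : ℕ) [NeZero n] (s : ℝ)
    (hrow : ∀ x : Fin d → ZMod n, ∑ y, tr J x y = s) (hs : 0 ≤ s) (hsS : s ≤ S) (T h₀ : ℝ)
    (hT : 0 ≤ T) (hh₀ : 0 < h₀) (t x : ℝ) (ht : 0 ≤ t) (htT : t ≤ T) (hx : h₀ ≤ x) :
    |mn (tr J : (Fin d → ZMod n) → (Fin d → ZMod n) → ℝ) t (lap x) -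
      (1 - Real.exp (-(x + S * t * mn (tr J : (Fin d → ZMod n) → (Fin d → ZMod n) → ℝ) t (lap x))))|
      ≤ er S T ε h₀ + (S - s) * T := by
  classical
  have hne : Nonempty (Fin d → ZMod n) := ⟨fun _ => 0⟩
  obtain ⟨Jn, hJn⟩ : ∃ Jn : (Fin d → ZMod n) → (Fin d → ZMod n) → ℝ, Jn = tr J := ⟨_, rfl⟩
  have hJ0 : ∀ x y, 0 ≤ Jn x y := by
    intro x y
    rw [hJn]
    unfold tr
    split_ifs with hxy
    · exact le_rfl
    · have h1 := hJ (disp x y) (fun h' => hxy ((disp_eq_zero x y).1 h'))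
      have h2 := hJ (disp y x) (fun h' => hxy ((disp_eq_zero y x).1 h').symm)
      linarith
  have hsym : ∀ x y, Jn x y = Jn y x := by
    intro x y
    rw [hJn]
    exact tr_symm J x y
  have hJε : ∀ x y, Jn x y ≤ ε := by
    intro x y
    rw [hJn]
    exact tr_le hε hup x y
  have hrow' : ∀ x, ∑ y, Jn x y = s := by
    intro x
    rw [hJn]
    exact hrow x
  rw [← hJn]
  obtain ⟨F, hF⟩ : ∃ F : ℝ → ℝ → ℝ, F = fun u h => mn Jn u (lap h) := ⟨_, rfl⟩
  obtain ⟨Ft, hFt⟩ : ∃ Ft : ℝ → ℝ → ℝ, Ft = fun u h =>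
    mn Jn u (fun g => ∑ x, ∑ y, Jn x y / 2 * (lap h (g * swap x y) - lap h g)) := ⟨_, rfl⟩
  obtain ⟨Fh, hFh⟩ : ∃ Fh : ℝ → ℝ → ℝ, Fh = fun u h => mn Jn u (dlap h) := ⟨_, rfl⟩
  have hS0 : 0 ≤ S := hs.trans hsS
  have hlawc : ∀ g : Perm (Fin d → ZMod n), Continuous fun u : ℝ => law Jn u g := by
    intro g
    rw [continuous_iff_continuousAt]
    intro u
    have h1 := (hKol (Fin d → ZMod n) Jn u (fun g' => if g' = g then 1 else 0)).continuousAt
    refine h1.congr (Filter.Eventually.of_forall fun v => ?_)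
    unfold mn
    simp
  have key := hBurg T s ((4 * ε + 2 * S * Real.sqrt (T * ε)) / h₀ ^ 2) h₀ F Ft Fh hT hs
    (by positivity) hh₀ ?_ ?_ ?_ ?_ ?_ ?_ t x ht htT hx
  · have h1 : F t x = mn Jn t (lap x) := by rw [hF]
    rw [h1] at key
    obtain ⟨f, hf⟩ : ∃ f, f = mn Jn t (lap x) := ⟨_, rfl⟩
    rw [← hf] at key ⊢
    have hf0 : 0 ≤ f := by
      rw [hf]
      refine mn_nonneg hJ0 ht fun g => ?_
      have h2 := lap_low g (show 0 ≤ x by linarith)
      have h3 : Real.exp (-x) ≤ 1 := Real.exp_le_one_iff.2 (by linarith)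
      linarith
    have hf1 : f ≤ 1 := by
      rw [hf]
      exact mn_le_const hJ0 ht 1 fun g => lap_le_one g x
    have h2 : |Real.exp (-(x + S * t * f)) - Real.exp (-(x + s * t * f))| ≤ (S - s) * T := by
      have h3 : s * t * f ≤ S * t * f :=
        mul_le_mul_of_nonneg_right (mul_le_mul_of_nonneg_right hsS ht) hf0
      have h4 : Real.exp (-(x + S * t * f)) ≤ Real.exp (-(x + s * t * f)) :=
        Real.exp_le_exp.2 (by linarith)
      rw [abs_sub_comm, abs_of_nonneg (by linarith)]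
      have h5 : Real.exp (-(x + S * t * f)) = Real.exp (-(x + s * t * f)) *
          Real.exp (-((S - s) * t * f)) := by
        rw [← Real.exp_add]
        congr 1
        ring
      have h6 := Real.add_one_le_exp (-((S - s) * t * f))
      have h7 : Real.exp (-(x + s * t * f)) ≤ 1 := by
        refine Real.exp_le_one_iff.2 ?_
        have : 0 ≤ s * t * f := by positivity
        linarith
      have h8 : 0 < Real.exp (-(x + s * t * f)) := Real.exp_pos _
      have h9 : (S - s) * t * f ≤ (S - s) * T := by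
        have h10 : 0 ≤ S - s := by linarith
        have h11 : t * f ≤ T * 1 := mul_le_mul htT hf1 hf0 hT
        calc (S - s) * t * f = (S - s) * (t * f) := by ring
          _ ≤ (S - s) * (T * 1) := mul_le_mul_of_nonneg_left h11 h10
          _ = (S - s) * T := by ring
      have h10 : 0 ≤ (S - s) * t * f := by
        have : 0 ≤ S - s := by linarith
        positivity
      rw [h5]
      nlinarith
    have h3 : (1 + s * T) * T * ((4 * ε + 2 * S * Real.sqrt (T * ε)) / h₀ ^ 2) ≤ er S T ε h₀ := by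
      unfold er
      refine mul_le_mul_of_nonneg_right ?_ (by positivity)
      refine mul_le_mul_of_nonneg_right ?_ hT
      have := mul_le_mul_of_nonneg_right hsS hT
      linarith
    have h4 : f - (1 - Real.exp (-(x + S * t * f))) =
        (f - (1 - Real.exp (-(x + s * t * f)))) +
          (Real.exp (-(x + S * t * f)) - Real.exp (-(x + s * t * f))) := by ring
    rw [h4]
    refine (abs_add_le _ _).trans ?_
    linarith
  · intro u h hu huT hh
    have hh0 : 0 ≤ h := by linarith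
    rw [hF]
    beta_reduce
    constructor
    · have h1 := mn_mono hJ0 hu (F := fun _ => 1 - Real.exp (-h)) (G := lap h)
        fun g => lap_low g hh0
      rwa [mn_const hJ0 hu] at h1
    · exact mn_le_const hJ0 hu 1 fun g => lap_le_one g h
  · intro h hh
    rw [hF]
    beta_reduce
    rw [mn_zero, lap_one]
  · intro u h hu huT hh
    rw [hF, hFt]
    exact hKol (Fin d → ZMod n) Jn u (lap h)
  · intro u h hu huT hh
    rw [hF, hFh]
    beta_reduce
    unfold mn
    exact HasDerivAt.fun_sum fun g _ => (Pool.Agent.TH268.PD.lap_deriv g h).const_mul _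
  · rw [hF]
    unfold mn lap
    refine continuous_finsetSum _ fun g _ => ?_
    refine ((hlawc g).comp continuous_fst).mul ?_
    fun_prop
  · intro u h hu huT hh
    have hh0 : 0 < h := by linarith
    have h1 := hPde (Fin d → ZMod n) Jn ε s u h hJ0 hsym hJε hrow' (fun x y => by
      rw [hJn]
      exact hTrans d n J u (fun l => Real.exp (-(h * l))) x y) hu hh0
    rw [hF, hFt, hFh]
    beta_reduce
    refine h1.trans ?_
    have h2 : Real.sqrt (u * ε) ≤ Real.sqrt (T * ε) :=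
      Real.sqrt_le_sqrt (mul_le_mul_of_nonneg_right huT hε)
    have h3 : 4 * ε + 2 * s * Real.sqrt (u * ε) ≤ 4 * ε + 2 * S * Real.sqrt (T * ε) := by
      have h4 : 2 * s * Real.sqrt (u * ε) ≤ 2 * S * Real.sqrt (T * ε) :=
        mul_le_mul (by linarith) h2 (Real.sqrt_nonneg _) (by linarith)
      linarith
    refine div_le_div₀ (by positivity) h3 (by positivity) ?_
    exact pow_le_pow_left₀ hh₀.le hh 2

theorem er_lim (S T h₀ : ℝ) : Tendsto (fun ε : ℝ => er S T ε h₀) (𝓝[>] 0) (𝓝 0) := by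
  have h1 : ContinuousAt (fun ε : ℝ => er S T ε h₀) 0 := by
    unfold er
    fun_prop
  have h2 : er S T 0 h₀ = 0 := by
    unfold er
    simp
  have h3 := h1.tendsto
  rw [h2] at h3
  exact h3.mono_left nhdsWithin_le_nhds

theorem BB_anti {A t t' : ℝ} (hlam : 0 < lam) (hA : 1 ≤ A) (ht : 0 < t) (htt : t ≤ t') :
    BB d σ lam A t' ≤ BB d σ lam A t := by
  unfold BB
  refine Real.sqrt_le_sqrt ?_
  have h1 : 0 < A ^ (σ / 2) := by
    have : 0 < A := by linarith
    positivity
  have h2 : Real.sqrt (t * lam) ≤ Real.sqrt (t' * lam) :=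
    Real.sqrt_le_sqrt (mul_le_mul_of_nonneg_right htt hlam.le)
  have h3 : 0 < Real.sqrt (t * lam) := Real.sqrt_pos.2 (by positivity)
  have h4 := div_le_div_of_nonneg_left h1.le h3 h2
  linarith

/-- the bound of the tail, uniformly in the range -/
theorem tail_le {C₁ : ℝ} (h : SP d σ lam S R J) (hd : 1 ≤ d) (hσ : 0 < σ)
    {t : ℝ} (ht : 0 < t) {α : ℝ → ℝ} {m : ℝ} (hα : ∀ K, 0 ≤ K →
      Tendsto (fun L : ℕ => aa J t K (L + 1)) atTop (𝓝 (α K)))
    (hαm : Tendsto α atTop (𝓝 m)) {A : ℝ} (hA : 1 ≤ A)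
    (H : ∀ (n : ℕ) [NeZero n] (K K' : ℝ), 1 ≤ K → 2 * (R * A * K' ^ qq d σ) + 1 ≤ n →
      mn (tr J : (Fin d → ZMod n) → (Fin d → ZMod n) → ℝ) t (win K K') ≤
        C₁ * BB d σ lam A t * K ^ (-ee d σ)) (K : ℝ) (hK : 1 ≤ K) :
    α K ≤ m + C₁ * BB d σ lam A t * K ^ (-ee d σ) := by
  have h1 : ∀ K' : ℝ, 0 ≤ K' → α K - α K' ≤ C₁ * BB d σ lam A t * K ^ (-ee d σ) := by
    intro K' hK'
    have h2 := (hα K (by linarith)).sub (hα K' hK')
    refine le_of_tendsto h2 ?_
    obtain ⟨n₀, hn₀⟩ := exists_nat_ge (2 * (R * A * K' ^ qq d σ) + 1)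
    refine Filter.eventually_atTop.2 ⟨n₀, fun L hL => ?_⟩
    have h3 := H (L + 1) K K' hK (by
      have h4 : (n₀ : ℝ) ≤ L := by exact_mod_cast hL
      push_cast
      linarith)
    unfold aa
    rw [← mn_sub]
    exact h3
  have h2 : Tendsto (fun K' => α K - α K') atTop (𝓝 (α K - m)) := hαm.const_sub _
  have h3 := le_of_tendsto h2 (Filter.eventually_atTop.2 ⟨0, fun K' hK' => h1 K' hK'⟩)
  linarith

/-- **The mass of the macroscopic cycles is close to the mean field mass.** -/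
theorem so_main (hL : Lnmt) (hKer : Ker) (hKol : Kol) (hPde : Pde) (hBurg : Burg)
    (hTrans : Trans) (hRow : Row) (hRoot : Root) (d : ℕ) (σ lam S δ : ℝ) (hd : 1 ≤ d)
    (hσ : 0 < σ) (hσd : σ < d) (hlam : 0 < lam) (hS : 0 < S) (hδ : 0 < δ) :
    ∃ ε : ℝ, 0 < ε ∧ ∀ (R : ℝ) (J : (Fin d → ℤ) → ℝ), SP d σ lam S R J →
      (∀ z : Fin d → ℤ, z ≠ 0 → J z ≤ ε) →
      HasSum (fun z : {z : Fin d → ℤ // z ≠ 0} => J z) S →
      ∀ (t : ℝ) (α : ℝ → ℝ) (m : ℝ), 0 < t → 0 ≤ m → m ≤ 1 →
        (∀ K, 0 ≤ K → Tendsto (fun L : ℕ => aa J t K (L + 1)) atTop (𝓝 (α K))) →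
        Tendsto α atTop (𝓝 m) → (∀ K, 0 ≤ K → m ≤ α K) → |m - giant (t * S)| ≤ δ := by
  obtain ⟨C₁, hC₁, HW⟩ := sum_win hL hKer hd hσ hσd
  obtain ⟨r1, r2, -, r4, r5, r6, r7⟩ := hRoot
  have he := ee_pos hd hσ hσd
  have hd0 : (0 : ℝ) < d := by
    have : (1 : ℝ) ≤ d := by exact_mod_cast hd
    linarith
  -- large times
  obtain ⟨T, hT1, hTbig⟩ : ∃ T : ℝ, 1 / S ≤ T ∧ ∃ A : ℝ, 1 ≤ A ∧ ∀ t, T ≤ t →
      C₁ * BB d σ lam A t ≤ δ ∧ 1 - δ ≤ giant (t * S) := by
    obtain ⟨U, hU0, hU⟩ := r5 δ hδ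
    obtain ⟨e, he'⟩ : ∃ e : ℝ, e = (δ / C₁) ^ 2 := ⟨_, rfl⟩
    have he0 : 0 < e := by rw [he']; positivity
    obtain ⟨A, hA1, hA2⟩ : ∃ A : ℝ, 1 ≤ A ∧ A ^ (-(d : ℝ)) ≤ e / 2 := by
      have h1 := (tendsto_rpow_neg_atTop hd0).eventually_le_const (show 0 < e / 2 by positivity)
      obtain ⟨A, h2, h3⟩ := (h1.and (Filter.eventually_ge_atTop 1)).exists
      exact ⟨A, h3, h2⟩
    have h1 : Tendsto (fun t : ℝ => A ^ (σ / 2) / Real.sqrt (t * lam)) atTop (𝓝 0) := by
      refine Tendsto.div_atTop tendsto_const_nhds ?_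
      exact Real.tendsto_sqrt_atTop.comp (tendsto_id.atTop_mul_const hlam)
    obtain ⟨T₁, hT₁⟩ := Filter.eventually_atTop.1
      (h1.eventually_le_const (show 0 < e / 2 by positivity))
    refine ⟨max (1 / S) (max T₁ (U / S)), le_max_left _ _, A, hA1, fun t ht => ⟨?_, ?_⟩⟩
    · have h2 := hT₁ t (((le_max_left _ _).trans (le_max_right _ _)).trans ht)
      have h3 : BB d σ lam A t ≤ δ / C₁ := by
        unfold BB
        rw [Real.sqrt_le_left (by positivity), ← he']
        linarith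
      calc C₁ * BB d σ lam A t ≤ C₁ * (δ / C₁) := mul_le_mul_of_nonneg_left h3 hC₁.le
        _ = δ := by field_simp
    · refine hU _ ?_
      have h2 := ((le_max_right _ _).trans (le_max_right _ _)).trans ht
      rwa [div_le_iff₀ hS] at h2
  obtain ⟨A, hA, hTbig⟩ := hTbig
  have hT0 : 0 < T := lt_of_lt_of_le (by positivity) hT1
  -- K
  obtain ⟨K, hK1, hK2⟩ : ∃ K : ℝ, 1 ≤ K ∧ C₁ * BB d σ lam 1 (1 / S) * K ^ (-ee d σ) ≤ δ / 2 := by
    have h1 := (tendsto_rpow_neg_atTop he).const_mul (C₁ * BB d σ lam 1 (1 / S))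
    rw [mul_zero] at h1
    obtain ⟨K, h2, h3⟩ := ((h1.eventually_le_const (show 0 < δ / 2 by positivity)).and
      (Filter.eventually_ge_atTop 1)).exists
    exact ⟨K, h3, h2⟩
  have hK0 : 0 < K := by linarith
  -- h
  obtain ⟨c, hc⟩ : ∃ c : ℝ, c = δ - 1 + Real.exp (-δ) := ⟨_, rfl⟩
  have hc0 : 0 < c := by
    have := Real.add_one_lt_exp (show -δ ≠ 0 by linarith)
    rw [hc]
    linarith
  obtain ⟨h, hh⟩ : ∃ h : ℝ, h = min (δ / (2 * K)) (c / 4) := ⟨_, rfl⟩
  have hh0 : 0 < h := by rw [hh]; exact lt_min (by positivity) (by positivity)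
  have hhK : h * K ≤ δ / 2 := by
    have h1 : h ≤ δ / (2 * K) := by rw [hh]; exact min_le_left _ _
    calc h * K ≤ δ / (2 * K) * K := mul_le_mul_of_nonneg_right h1 hK0.le
      _ = δ / 2 := by field_simp
  have hhc : h ≤ c / 4 := by rw [hh]; exact min_le_right _ _
  obtain ⟨c', hc'⟩ : ∃ c' : ℝ, c' = (1 - Real.exp (-h)) * Real.exp (-(T * S)) := ⟨_, rfl⟩
  have hc'0 : 0 < c' := by
    have h1 : Real.exp (-h) < 1 := by
      rw [Real.exp_lt_one_iff]
      linarith
    rw [hc']
    have : 0 < 1 - Real.exp (-h) := by linarith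
    positivity
  -- ε
  obtain ⟨ε, hε1, hε2⟩ := (((er_lim S T h).eventually_le_const
    (show 0 < min (c' / 4) (c / 4) by exact lt_min (by positivity) (by positivity))).and
      self_mem_nhdsWithin).exists
  have hε0 : 0 < ε := hε2
  refine ⟨ε, hε0, ?_⟩
  intro R J hSP hup hsum t α m ht hm0 hm1 hα hαm hmα
  have hJ0 : ∀ z : Fin d → ℤ, z ≠ 0 → 0 ≤ J z := fun z hz => (hSP.sm hσ).nonneg z hz
  have htS : 0 ≤ t * S := by positivity
  obtain ⟨g0, g1, g2, g3⟩ := r1 (t * S) htS
  by_cases htT : T ≤ t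
  · obtain ⟨b1, b2⟩ := hTbig t htT
    have h1 := tail_le hSP hd hσ ht hα hαm hA
      (fun n _ K K' hK hn => HW lam S R J hSP A t hA ht n K K' hK hn) 1 le_rfl
    rw [Real.one_rpow, mul_one] at h1
    have h2 : α 1 = 1 := by
      have h3 := hα 1 zero_le_one
      have h4 : ∀ L : ℕ, aa J t 1 (L + 1) = 1 := by
        intro L
        unfold aa
        have hne : Nonempty (Fin d → ZMod (L + 1)) := ⟨fun _ => 0⟩
        have e1 : (mas 1 : Perm (Fin d → ZMod (L + 1)) → ℝ) = fun _ => 1 := by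
          funext g
          exact mas_one_eq g
        rw [e1]
        exact mn_const (fun x y => (hSP.sm hσ).tr_nonneg x y) ht.le 1
      simp only [h4] at h3
      exact (tendsto_nhds_unique h3 tendsto_const_nhds)
    rw [h2] at h1
    rw [abs_le]
    constructor <;> linarith
  rw [not_le] at htT
  obtain ⟨s, hs1, hs2, hs3⟩ := hRow d J S hd hJ0 hsum
  -- large sides
  have hs4 : Tendsto (fun n => (S - s n) * T) atTop (𝓝 0) := by
    have h1 := (hs1.const_sub S).mul_const T
    rw [sub_self, zero_mul] at h1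
    exact h1
  obtain ⟨n₀, hn₀⟩ := Filter.eventually_atTop.1 (hs4.eventually_le_const
    (show 0 < min (c' / 4) (c / 4) by exact lt_min (by positivity) (by positivity)))
  have hfin : ∀ L : ℕ, n₀ ≤ L → giant (t * S) ≤
      mn (tr J : (Fin d → ZMod (L + 1)) → (Fin d → ZMod (L + 1)) → ℝ) t (lap h) ∧
      mn (tr J : (Fin d → ZMod (L + 1)) → (Fin d → ZMod (L + 1)) → ℝ) t (lap h) ≤
        giant (t * S) + δ := by
    intro L hL
    have hne : Nonempty (Fin d → ZMod (L + 1)) := ⟨fun _ => 0⟩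
    have hT0' : ∀ x y : Fin d → ZMod (L + 1), 0 ≤ tr J x y :=
      fun x y => (hSP.sm hσ).tr_nonneg x y
    have h1 := fin_vol hKol hPde hBurg hTrans hJ0 hε0.le hup (L + 1) (s (L + 1))
      (fun x => hs3 (L + 1) x) (hs2 _).1 (hs2 _).2 T h hT0.le hh0 t h ht.le htT.le le_rfl
    have h2 := hn₀ (L + 1) (by omega)
    obtain ⟨F, hF⟩ : ∃ F, F = mn (tr J : (Fin d → ZMod (L + 1)) → (Fin d → ZMod (L + 1)) → ℝ) t
      (lap h) := ⟨_, rfl⟩
    rw [← hF] at h1 ⊢
    have hF0 : 0 ≤ F := by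
      rw [hF]
      refine mn_nonneg hT0' ht.le fun g => ?_
      have h2 := lap_low g hh0.le
      have h3 : Real.exp (-h) ≤ 1 := Real.exp_le_one_iff.2 (by linarith)
      linarith
    have hF1 : F ≤ 1 := by
      rw [hF]
      exact mn_le_const hT0' ht.le 1 fun g => lap_le_one g h
    obtain ⟨r, hr⟩ : ∃ r : ℝ, r = er S T ε h + (S - s (L + 1)) * T := ⟨_, rfl⟩
    rw [← hr, show S * t * F = t * S * F by ring] at h1
    have hr1 : r ≤ c' / 2 := by
      have h3 : min (c' / 4) (c / 4) ≤ c' / 4 := min_le_left _ _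
      rw [hr]
      linarith
    have hr2 : r ≤ c / 2 := by
      have h3 : min (c' / 4) (c / 4) ≤ c / 4 := min_le_right _ _
      rw [hr]
      linarith
    rw [abs_le] at h1
    constructor
    · refine r6 (t * S) h r F htS hh0 hF0 hF1 (by linarith [h1.1]) ?_
      have h3 : Real.exp (-(T * S)) ≤ Real.exp (-(t * S)) := by
        refine Real.exp_le_exp.2 ?_
        have := mul_le_mul_of_nonneg_right htT.le hS.le
        linarith
      have h4 : c' ≤ (1 - Real.exp (-h)) * Real.exp (-(t * S)) := by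
        rw [hc']
        refine mul_le_mul_of_nonneg_left h3 ?_
        have : Real.exp (-h) ≤ 1 := Real.exp_le_one_iff.2 (by linarith)
        linarith
      linarith
    · refine r7 (t * S) (r + h) δ F htS hδ hF0 hF1 ?_ (by rw [← hc]; linarith)
      have h3 : Real.exp (-(t * S * F)) - Real.exp (-(h + t * S * F)) ≤ h := by
        have h4 : Real.exp (-(h + t * S * F)) = Real.exp (-(t * S * F)) * Real.exp (-h) := by
          rw [← Real.exp_add]
          congr 1
          ring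
        have h5 := Real.add_one_le_exp (-h)
        have h6 : Real.exp (-(t * S * F)) ≤ 1 := by
          refine Real.exp_le_one_iff.2 ?_
          have : 0 ≤ t * S * F := by positivity
          linarith
        have h7 := Real.exp_pos (-(t * S * F))
        have h8 : Real.exp (-h) ≤ 1 := Real.exp_le_one_iff.2 (by linarith)
        rw [h4]
        nlinarith
      linarith [h1.2]
  -- upper bound
  have hupper : m ≤ giant (t * S) + δ := by
    have h1 : ∀ K' : ℝ, 0 ≤ K' → (1 - Real.exp (-(h * K'))) * m ≤ giant (t * S) + δ := by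
      intro K' hK'
      have h2 := (hα K' hK').const_mul (1 - Real.exp (-(h * K')))
      have h3 : (1 - Real.exp (-(h * K'))) * α K' ≤ giant (t * S) + δ := by
        refine le_of_tendsto h2 (Filter.eventually_atTop.2 ⟨n₀, fun L hL => ?_⟩)
        have hne : Nonempty (Fin d → ZMod (L + 1)) := ⟨fun _ => 0⟩
        refine le_trans ?_ (hfin L hL).2
        unfold aa
        have h4 := mn_mono (fun x y => (hSP.sm hσ).tr_nonneg x y) ht.le
          (F := fun g : Perm (Fin d → ZMod (L + 1)) => (1 - Real.exp (-(h * K'))) * mas K' g)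
          (G := lap h) fun g => mas_le_lap hh0.le g
        rwa [mn_smul] at h4
      refine le_trans ?_ h3
      refine mul_le_mul_of_nonneg_left (hmα K' hK') ?_
      have : Real.exp (-(h * K')) ≤ 1 := Real.exp_le_one_iff.2 (by
        have := mul_nonneg hh0.le hK'
        linarith)
      linarith
    have h2 : Tendsto (fun K' : ℝ => (1 - Real.exp (-(h * K'))) * m) atTop (𝓝 ((1 - 0) * m)) := by
      refine Tendsto.mul_const _ (Tendsto.const_sub _ ?_)
      exact Real.tendsto_exp_atBot.comp (tendsto_neg_atTop_atBot.comp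
        (tendsto_id.const_mul_atTop hh0))
    rw [sub_zero, one_mul] at h2
    exact le_of_tendsto h2 (Filter.eventually_atTop.2 ⟨0, fun K' hK' => h1 K' hK'⟩)
  -- lower bound
  have hlower : giant (t * S) - δ ≤ m := by
    by_cases ht1 : t * S ≤ 1
    · rw [r2 (t * S) htS ht1]
      linarith
    rw [not_le] at ht1
    have ht2 : 1 / S ≤ t := by
      rw [div_le_iff₀ hS]
      exact ht1.le
    have h1 := tail_le hSP hd hσ ht hα hαm le_rfl
      (fun n _ K K' hK hn => HW lam S R J hSP 1 t le_rfl ht n K K' hK hn) K hK1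
    have h2 : C₁ * BB d σ lam 1 t * K ^ (-ee d σ) ≤ δ / 2 := by
      refine le_trans ?_ hK2
      refine mul_le_mul_of_nonneg_right ?_ (by positivity)
      exact mul_le_mul_of_nonneg_left (BB_anti hlam le_rfl (by positivity) ht2) hC₁.le
    have h3 : giant (t * S) - h * K ≤ α K := by
      refine ge_of_tendsto (hα K hK0.le) (Filter.eventually_atTop.2 ⟨n₀, fun L hL => ?_⟩)
      have hne : Nonempty (Fin d → ZMod (L + 1)) := ⟨fun _ => 0⟩
      have hT0' : ∀ x y : Fin d → ZMod (L + 1), 0 ≤ tr J x y :=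
        fun x y => (hSP.sm hσ).tr_nonneg x y
      have h4 := mn_mono hT0' ht.le (F := lap h)
        (G := fun g : Perm (Fin d → ZMod (L + 1)) => mas K g + h * K)
        fun g => lap_le_mas hK0.le hh0.le g
      rw [mn_add, mn_const hT0' ht.le] at h4
      have h5 := (hfin L hL).1
      unfold aa
      linarith
    linarith
  rw [abs_le]
  constructor <;> linarith

end

end Pool.Agent.N795.SO
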