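import Pool.Agent.N795.LN.Dyad

/-!
# The window bound for spread-out rates, uniformly in the range
-/

set_option autoImplicit false

namespace Pool.Agent.N795.SO

open Finset Equiv Filter Topology
open Pool.Agent.W805.LR (len cnt)
open Pool.Agent.TH268.PD (law mas)
open Pool.Agent.N795.ST
open Pool.Agent.N795.LN

/-- rates spread out over a distance `R`, bounded from below by `lam R ^ σ |z| ^ (-(d + σ))` at
distances at least `R` -/
structure SP (d : ℕ) (σ lam S R : ℝ) (J : (Fin d → ℤ) → ℝ) : Prop where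
  lpos : 0 < lam
  Rone : 1 ≤ R
  low : ∀ z, z ≠ 0 → lam * R ^ σ * (max R (nrm z : ℝ)) ^ (-((d : ℝ) + σ)) ≤ J z
  sum : ∀ s : Finset (Fin d → ℤ), 0 ∉ s → ∑ z ∈ s, J z ≤ S

section

variable {d : ℕ} {σ lam S R : ℝ} {J : (Fin d → ℤ) → ℝ}

theorem SP.sm (h : SP d σ lam S R J) (hσ : 0 < σ) : SM d σ (lam * R ^ (-(d : ℝ))) S J := by
  have hR := h.Rone
  have hR0 : 0 < R := by linarith
  have hlam := h.lpos
  refine ⟨by positivity, fun z hz => ?_, h.sum⟩
  refine le_trans ?_ (h.low z hz)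
  have hz1 : (1 : ℝ) ≤ nrm z := by exact_mod_cast nrm_pos hz
  have h1 : R ^ (-(d : ℝ)) * (nrm z : ℝ) ^ (-((d : ℝ) + σ)) ≤
      R ^ σ * (max R (nrm z : ℝ)) ^ (-((d : ℝ) + σ)) := by
    have e1 : R ^ (-(d : ℝ)) = R ^ σ * R ^ (-((d : ℝ) + σ)) := by
      rw [← Real.rpow_add hR0]
      congr 1
      ring
    rw [e1, mul_assoc, ← Real.mul_rpow hR0.le (by linarith)]
    refine mul_le_mul_of_nonneg_left ?_ (by positivity)
    refine Real.rpow_le_rpow_of_nonpos (lt_of_lt_of_le hR0 (le_max_left _ _)) ?_ ?_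
    · refine max_le ?_ ?_
      · nlinarith
      · nlinarith
    · have : (0 : ℝ) ≤ d := by positivity
      linarith
  calc lam * R ^ (-(d : ℝ)) * (nrm z : ℝ) ^ (-((d : ℝ) + σ)) =
      lam * (R ^ (-(d : ℝ)) * (nrm z : ℝ) ^ (-((d : ℝ) + σ))) := by ring
    _ ≤ lam * (R ^ σ * (max R (nrm z : ℝ)) ^ (-((d : ℝ) + σ))) :=
      mul_le_mul_of_nonneg_left h1 hlam.le
    _ = _ := by ring

theorem SP.le_tr (h : SP d σ lam S R J) {M : ℕ} {x y : Fin d → ZMod M} (hxy : x ≠ y) :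
    lam * R ^ σ * (max R (nrm (disp x y) : ℝ)) ^ (-((d : ℝ) + σ)) ≤ tr J x y := by
  unfold tr
  rw [if_neg hxy]
  have h1 := h.low (disp x y) (fun h' => hxy ((disp_eq_zero x y).1 h'))
  have h2 := h.low (disp y x) (fun h' => hxy ((disp_eq_zero y x).1 h').symm)
  rw [← nrm_symm x y] at h2
  linarith

/-- the constant of the window bound -/
noncomputable def BB (d : ℕ) (σ lam A t : ℝ) : ℝ :=
  Real.sqrt (A ^ (σ / 2) / Real.sqrt (t * lam) + A ^ (-(d : ℝ)))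

theorem BB_pos {A t : ℝ} (hA : 1 ≤ A) : 0 < BB d σ lam A t := by
  unfold BB
  refine Real.sqrt_pos.2 ?_
  have : 0 < A := by linarith
  positivity

/-- one window -/
theorem one_win (hL : Lnmt) (hKer : Ker) (hd : 1 ≤ d) (hσ : 0 < σ) (hσd : σ < d) :
    ∃ C₁ : ℝ, 0 < C₁ ∧ ∀ (lam S R : ℝ) (J : (Fin d → ℤ) → ℝ), SP d σ lam S R J →
      ∀ A t : ℝ, 1 ≤ A → 0 < t → ∀ (n : ℕ) [NeZero n] (K : ℝ), 1 ≤ K →
      2 * (R * A * K ^ qq d σ) + 1 ≤ n →
      mn (tr J : (Fin d → ZMod n) → (Fin d → ZMod n) → ℝ) t (win K (2 * K)) ≤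
        C₁ * BB d σ lam A t * K ^ (-ee d σ) := by
  classical
  have hd1 : (1 : ℝ) ≤ d := by exact_mod_cast hd
  have hq := qq_pos (σ := σ) hd hσ
  have he := ee_pos hd hσ hσd
  obtain ⟨C, hC, H⟩ := hL
  obtain ⟨D, hD⟩ : ∃ D : ℝ, D = (C + 1) * (Real.sqrt (3 ^ d) * 2 ^ (σ / 2)) := ⟨_, rfl⟩
  have h3d : 1 ≤ Real.sqrt (3 ^ d) := by
    rw [Real.one_le_sqrt]
    exact one_le_pow₀ (by norm_num)
  have h2s : (1 : ℝ) ≤ 2 ^ (σ / 2) := Real.one_le_rpow (by norm_num) (by positivity)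
  have hE1 : 1 ≤ Real.sqrt (3 ^ d) * 2 ^ (σ / 2) := by nlinarith
  have hD1 : 1 ≤ D := by
    rw [hD]
    nlinarith
  have hDC : C ≤ D := by
    rw [hD]
    nlinarith
  have hD0 : 0 < D := by linarith
  refine ⟨Real.sqrt D, Real.sqrt_pos.2 hD0, ?_⟩
  intro lam S R₀ J h A t hA ht0 n _ K hK1 hn
  have hlam := h.lpos
  have hR₀ := h.Rone
  have hR₀0 : 0 < R₀ := by linarith
  have hA0 : 0 < A := by linarith
  have hK0 : 0 < K := by linarith
  have hsm := h.sm hσ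
  obtain ⟨P, hP⟩ : ∃ P : ℝ, P = R₀ * A * K ^ qq d σ := ⟨_, rfl⟩
  have hKq1 : 1 ≤ K ^ qq d σ := Real.one_le_rpow hK1 hq.le
  have hRA : R₀ ≤ R₀ * A := by nlinarith
  have hPR : R₀ ≤ P := by
    rw [hP]
    nlinarith
  have hP1 : 1 ≤ P := hR₀.trans hPR
  obtain ⟨r, hr⟩ : ∃ r : ℕ, r = ⌈P⌉₊ := ⟨_, rfl⟩
  obtain ⟨R, hR⟩ : ∃ R : ℝ, R = (r : ℝ) := ⟨_, rfl⟩
  have hRP : P ≤ R := by rw [hR, hr]; exact Nat.le_ceil P
  have hRP2 : R ≤ 2 * P := by
    rw [hR, hr]
    have := Nat.ceil_lt_add_one (show 0 ≤ P by linarith)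
    linarith
  have hR1 : 1 ≤ R := hP1.trans hRP
  have hR0 : 0 < R := by linarith
  have hrn : r + 1 ≤ n := by
    have h1 : (r : ℝ) + 1 ≤ n := by
      rw [← hR]
      rw [← hP] at hn
      linarith
    exact_mod_cast h1
  obtain ⟨u, hu⟩ : ∃ u : ℝ, u = lam * R₀ ^ σ * R ^ (-((d : ℝ) + σ)) := ⟨_, rfl⟩
  have hu0 : 0 < u := by rw [hu]; positivity
  obtain ⟨k1, k2⟩ := hKer d n r u hu0.le hrn
  rw [← hR] at k1 k2
  obtain ⟨Y, hY⟩ : ∃ Y : ℝ, Y = t * lam * K * (R₀ ^ σ * R ^ (-σ)) := ⟨_, rfl⟩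
  have hY0 : 0 < Y := by rw [hY]; positivity
  have f1 : R ^ (-((d : ℝ) + σ)) * R ^ d = R ^ (-σ) := by
    rw [← Real.rpow_natCast, ← Real.rpow_add hR0]
    congr 1
    ring
  have hYu : t * u * R ^ d * K = Y := by
    rw [hY, hu, ← f1]
    ring
  obtain ⟨κ, hκ⟩ : ∃ κ : ℝ, κ = u * (2 * R + 1) ^ d := ⟨_, rfl⟩
  have hκ0 : 0 < κ := by rw [hκ]; positivity
  have f3 : t * κ * K ≤ 3 ^ d * Y := by
    have h1 : (2 * R + 1) ^ d ≤ 3 ^ d * R ^ d := by
      rw [← mul_pow]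
      exact pow_le_pow_left₀ (by positivity) (by linarith) d
    rw [hκ, ← hYu]
    calc t * (u * (2 * R + 1) ^ d) * K = (t * u * K) * (2 * R + 1) ^ d := by ring
      _ ≤ (t * u * K) * (3 ^ d * R ^ d) := mul_le_mul_of_nonneg_left h1 (by positivity)
      _ = 3 ^ d * (t * u * R ^ d * K) := by ring
  have f4 : Y ≤ t * κ * K := by
    have h1 : R ^ d ≤ (2 * R + 1) ^ d := pow_le_pow_left₀ hR0.le (by linarith) d
    rw [hκ, ← hYu]
    calc t * u * R ^ d * K = (t * u * K) * R ^ d := by ring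
      _ ≤ (t * u * K) * (2 * R + 1) ^ d := mul_le_mul_of_nonneg_left h1 (by positivity)
      _ = t * (u * (2 * R + 1) ^ d) * K := by ring
  have hb : R ^ d ≤ (R + 1) ^ d := pow_le_pow_left₀ hR0.le (by linarith) d
  have f5 : Y ≤ t * u * (R + 1) ^ d * K := by
    rw [← hYu]
    calc t * u * R ^ d * K = (t * u * K) * R ^ d := by ring
      _ ≤ (t * u * K) * (R + 1) ^ d := mul_le_mul_of_nonneg_left hb (by positivity)
      _ = t * u * (R + 1) ^ d * K := by ring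
  obtain ⟨X, hX⟩ : ∃ X : ℝ, X = K ^ (-ee d σ) := ⟨_, rfl⟩
  have hX0 : 0 < X := by rw [hX]; positivity
  have hX2 : K ^ (-(2 * ee d σ)) = X ^ 2 := by
    rw [hX, ← Real.rpow_natCast, ← Real.rpow_mul hK0.le]
    congr 1
    push_cast
    ring
  -- the lower bound for `√ Y`
  have f6 : 1 / Real.sqrt Y ≤ 2 ^ (σ / 2) * (A ^ (σ / 2) / Real.sqrt (t * lam)) * X ^ 2 := by
    have h1 : (2 * P) ^ (-σ) ≤ R ^ (-σ) :=
      Real.rpow_le_rpow_of_nonpos hR0 hRP2 (by linarith)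
    have h2 : R₀ ^ σ * (2 * P) ^ (-σ) = (2 * A) ^ (-σ) * K ^ (-(qq d σ * σ)) := by
      rw [hP, show 2 * (R₀ * A * K ^ qq d σ) = R₀ * ((2 * A) * K ^ qq d σ) by ring,
        Real.mul_rpow hR₀0.le (by positivity), Real.mul_rpow (by positivity) (by positivity),
        ← Real.rpow_mul hK0.le, ← mul_assoc, ← Real.rpow_add hR₀0, add_neg_cancel, Real.rpow_zero,
        one_mul]
      congr 2
      ring
    have h3 : K * K ^ (-(qq d σ * σ)) = (X ^ 2)⁻¹ ^ 2 := by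
      rw [← hX2, ← Real.rpow_neg hK0.le, neg_neg, ← Real.rpow_natCast, ← Real.rpow_mul hK0.le]
      have e1 : K * K ^ (-(qq d σ * σ)) = K ^ (1 - qq d σ * σ) := by
        rw [sub_eq_add_neg, Real.rpow_add hK0, Real.rpow_one]
      rw [e1, qq_ee1 hd hσ]
      congr 1
      push_cast
      ring
    have h4 : t * lam * ((2 * A) ^ (-σ)) * (X ^ 2)⁻¹ ^ 2 ≤ Y := by
      rw [hY, ← h3]
      calc t * lam * ((2 * A) ^ (-σ)) * (K * K ^ (-(qq d σ * σ))) =
          t * lam * K * ((2 * A) ^ (-σ) * K ^ (-(qq d σ * σ))) := by ring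
        _ = t * lam * K * (R₀ ^ σ * (2 * P) ^ (-σ)) := by rw [h2]
        _ ≤ t * lam * K * (R₀ ^ σ * R ^ (-σ)) := by
          refine mul_le_mul_of_nonneg_left ?_ (by positivity)
          exact mul_le_mul_of_nonneg_left h1 (by positivity)
    have h5 : Real.sqrt (t * lam) * (2 * A) ^ (-(σ / 2)) * (X ^ 2)⁻¹ ≤ Real.sqrt Y := by
      have h6 : Real.sqrt (t * lam * ((2 * A) ^ (-σ)) * (X ^ 2)⁻¹ ^ 2) =
          Real.sqrt (t * lam) * (2 * A) ^ (-(σ / 2)) * (X ^ 2)⁻¹ := by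
        rw [Real.sqrt_mul (by positivity), Real.sqrt_mul (by positivity),
          Real.sqrt_sq (by positivity)]
        congr 2
        rw [Real.sqrt_eq_rpow, ← Real.rpow_mul (by positivity)]
        congr 1
        ring
      rw [← h6]
      exact Real.sqrt_le_sqrt h4
    have hst : 0 < Real.sqrt (t * lam) := Real.sqrt_pos.2 (by positivity)
    have h7 : 0 < Real.sqrt (t * lam) * (2 * A) ^ (-(σ / 2)) * (X ^ 2)⁻¹ := by positivity
    refine (one_div_le_one_div_of_le h7 h5).trans (le_of_eq ?_)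
    rw [Real.rpow_neg (by positivity), Real.mul_rpow (by norm_num) hA0.le]
    field_simp
  have hne : Nonempty (Fin d → ZMod n) := ⟨fun _ => 0⟩
  have hT0 : ∀ x y : Fin d → ZMod n, 0 ≤ tr J x y := fun x y => hsm.tr_nonneg x y
  have hp0 : 0 ≤ mn (tr J : (Fin d → ZMod n) → (Fin d → ZMod n) → ℝ) t (win K (2 * K)) :=
    mn_nonneg hT0 ht0.le fun g => win_nonneg (by linarith) g
  have hp1 : mn (tr J : (Fin d → ZMod n) → (Fin d → ZMod n) → ℝ) t (win K (2 * K)) ≤ 1 :=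
    mn_le_const hT0 ht0.le 1 fun g => win_le_one _ _ g
  obtain ⟨Q, hQ⟩ : ∃ Q : ℝ, Q = A ^ (σ / 2) / Real.sqrt (t * lam) + A ^ (-(d : ℝ)) := ⟨_, rfl⟩
  have hQ0 : 0 < Q := by rw [hQ]; positivity
  have hQ1 : A ^ (σ / 2) / Real.sqrt (t * lam) ≤ Q := by
    rw [hQ]
    have : 0 < A ^ (-(d : ℝ)) := by positivity
    linarith
  have hBB : BB d σ lam A t = Real.sqrt Q := by rw [hQ]; rfl
  rw [hBB, ← hX]
  have hkey : mn (tr J : (Fin d → ZMod n) → (Fin d → ZMod n) → ℝ) t (win K (2 * K)) ^ 2 ≤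
      (Real.sqrt D * Real.sqrt Q * X) ^ 2 := by
    rw [mul_pow, mul_pow, Real.sq_sqrt hD0.le, Real.sq_sqrt hQ0.le]
    by_cases hY1 : 1 ≤ Y
    · have hJ1 : ∀ x y : Fin d → ZMod n, 0 ≤ tr J x y - LN.ker u r x y := by
        intro x y
        unfold LN.ker
        by_cases hxy : x ≠ y ∧ nrm (disp x y) ≤ r
        · rw [if_pos hxy]
          have h1 := h.le_tr hxy.1
          have h3 : (nrm (disp x y) : ℝ) ≤ R := by rw [hR]; exact_mod_cast hxy.2
          have h4 : R ^ (-((d : ℝ) + σ)) ≤ (max R₀ (nrm (disp x y) : ℝ)) ^ (-((d : ℝ) + σ)) :=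
            Real.rpow_le_rpow_of_nonpos (lt_of_lt_of_le hR₀0 (le_max_left _ _))
              (max_le (hPR.trans hRP) h3) (by linarith)
          have h5 := mul_le_mul_of_nonneg_left h4 (show 0 ≤ lam * R₀ ^ σ by positivity)
          rw [← hu] at h5
          linarith
        · rw [if_neg hxy, sub_zero]
          exact hT0 x y
      have hmain := H (Fin d → ZMod n) (fun x y => tr J x y - LN.ker u r x y) (LN.ker u r) t u
        ((R + 1) ^ d) κ K hJ1 (ker_nonneg hu0.le r) (ker_le_u hu0.le r) ht0 hu0 (by positivity)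
        hκ0 hK1 (hY1.trans f4) (by rw [hκ]; exact k1) k2
      have e1 : (fun x y : Fin d → ZMod n => (tr J x y - LN.ker u r x y) + LN.ker u r x y) = tr J := by
        funext x y
        ring
      rw [e1] at hmain
      have g1 : Real.sqrt (t * κ * K) / (t * u * (R + 1) ^ d * K) ≤
          Real.sqrt (3 ^ d) * (1 / Real.sqrt Y) := by
        have h1 : Real.sqrt (t * κ * K) ≤ Real.sqrt (3 ^ d) * Real.sqrt Y := by
          rw [← Real.sqrt_mul (by positivity)]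
          exact Real.sqrt_le_sqrt f3
        have h2 : Real.sqrt (t * κ * K) / (t * u * (R + 1) ^ d * K) ≤
            Real.sqrt (3 ^ d) * Real.sqrt Y / Y := by
          refine div_le_div₀ (by positivity) h1 hY0 f5
        have hsY : 0 < Real.sqrt Y := Real.sqrt_pos.2 hY0
        have h3 : Real.sqrt (3 ^ d) * Real.sqrt Y / Y = Real.sqrt (3 ^ d) * (1 / Real.sqrt Y) := by
          have h4 : Real.sqrt Y * Real.sqrt Y = Y := Real.mul_self_sqrt hY0.le
          rw [mul_one_div, div_eq_div_iff hY0.ne' hsY.ne']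
          linear_combination (Real.sqrt (3 ^ d)) * h4
        rw [h3] at h2
        exact h2
      have g2 : K / (R + 1) ^ d ≤ A ^ (-(d : ℝ)) * X ^ 2 := by
        have h0 : A * K ^ qq d σ ≤ R + 1 := by
          have : A * K ^ qq d σ ≤ P := by
            rw [hP]
            have : 0 < A * K ^ qq d σ := by positivity
            nlinarith
          linarith
        have h1 : (A * K ^ qq d σ) ^ d ≤ (R + 1) ^ d := pow_le_pow_left₀ (by positivity) h0 d
        refine (div_le_div_of_nonneg_left hK0.le (by positivity) h1).trans (le_of_eq ?_)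
        rw [← hX2, ← qq_ee2 hd hσ, sub_eq_add_neg, Real.rpow_add hK0, Real.rpow_one,
          Real.rpow_neg hK0.le, Real.rpow_mul hK0.le, Real.rpow_natCast, Real.rpow_neg hA0.le,
          Real.rpow_natCast, mul_pow]
        field_simp
      have h1 : (∑ g, law (tr J : (Fin d → ZMod n) → (Fin d → ZMod n) → ℝ) t g *
          win K (2 * K) g) = mn (tr J) t (win K (2 * K)) := rfl
      rw [h1] at hmain
      refine hmain.trans ?_
      have h2 := mul_le_mul_of_nonneg_left (add_le_add (g1.trans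
        (mul_le_mul_of_nonneg_left f6 (Real.sqrt_nonneg _))) g2) hC.le
      refine h2.trans ?_
      obtain ⟨p, hp⟩ : ∃ p, p = A ^ (σ / 2) / Real.sqrt (t * lam) := ⟨_, rfl⟩
      obtain ⟨q, hq'⟩ : ∃ q, q = A ^ (-(d : ℝ)) := ⟨_, rfl⟩
      have hp00 : 0 ≤ p := by rw [hp]; positivity
      have hq00 : 0 ≤ q := by rw [hq']; positivity
      rw [hQ, ← hp, ← hq', hD]
      have h3 : C * (Real.sqrt (3 ^ d) * (2 ^ (σ / 2) * p * X ^ 2) + q * X ^ 2) =
          C * ((Real.sqrt (3 ^ d) * 2 ^ (σ / 2)) * p + q) * X ^ 2 := by ring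
      rw [h3]
      refine mul_le_mul_of_nonneg_right ?_ (by positivity)
      have h4 : q ≤ Real.sqrt (3 ^ d) * 2 ^ (σ / 2) * q := by nlinarith
      have h5 : 0 ≤ Real.sqrt (3 ^ d) * 2 ^ (σ / 2) * (p + q) := by positivity
      nlinarith
    · rw [not_le] at hY1
      have h1 : 1 ≤ 1 / Real.sqrt Y := by
        rw [le_div_iff₀ (Real.sqrt_pos.2 hY0), one_mul]
        have := Real.sqrt_le_sqrt hY1.le
        rwa [Real.sqrt_one] at this
      have h2 := h1.trans f6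
      have h3 : mn (tr J : (Fin d → ZMod n) → (Fin d → ZMod n) → ℝ) t (win K (2 * K)) ^ 2 ≤ 1 := by
        nlinarith
      refine h3.trans (h2.trans ?_)
      have h4 : 2 ^ (σ / 2) ≤ D := by
        rw [hD]
        have h5 : 2 ^ (σ / 2) ≤ Real.sqrt (3 ^ d) * 2 ^ (σ / 2) := by nlinarith
        nlinarith
      have h5 : 0 ≤ A ^ (σ / 2) / Real.sqrt (t * lam) := by positivity
      have h6 : 2 ^ (σ / 2) * (A ^ (σ / 2) / Real.sqrt (t * lam)) ≤ D * Q := by
        calc 2 ^ (σ / 2) * (A ^ (σ / 2) / Real.sqrt (t * lam)) ≤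
            D * (A ^ (σ / 2) / Real.sqrt (t * lam)) := mul_le_mul_of_nonneg_right h4 h5
          _ ≤ D * Q := mul_le_mul_of_nonneg_left hQ1 hD0.le
      exact mul_le_mul_of_nonneg_right h6 (by positivity)
  exact (sq_le_sq₀ hp0 (by positivity)).1 hkey

/-- all windows -/
theorem sum_win (hL : Lnmt) (hKer : Ker) (hd : 1 ≤ d) (hσ : 0 < σ) (hσd : σ < d) :
    ∃ C₁ : ℝ, 0 < C₁ ∧ ∀ (lam S R : ℝ) (J : (Fin d → ℤ) → ℝ), SP d σ lam S R J →
      ∀ A t : ℝ, 1 ≤ A → 0 < t → ∀ (n : ℕ) [NeZero n] (K K' : ℝ), 1 ≤ K →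
      2 * (R * A * K' ^ qq d σ) + 1 ≤ n →
      mn (tr J : (Fin d → ZMod n) → (Fin d → ZMod n) → ℝ) t (win K K') ≤
        C₁ * BB d σ lam A t * K ^ (-ee d σ) := by
  have hq := qq_pos (σ := σ) hd hσ
  have he := ee_pos hd hσ hσd
  obtain ⟨C, hC, H⟩ := one_win hL hKer hd hσ hσd
  obtain ⟨a, ha⟩ : ∃ a : ℝ, a = (2 : ℝ) ^ (-ee d σ) := ⟨_, rfl⟩
  have ha0 : 0 < a := by rw [ha]; positivity
  have ha1 : a < 1 := by
    rw [ha]
    exact Real.rpow_lt_one_of_one_lt_of_neg (by norm_num) (by linarith)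
  have ha2 : 0 < 1 - a := by linarith
  refine ⟨C / (1 - a), by positivity, ?_⟩
  intro lam S R J h A t hA ht0 n _ K K' hK hn
  have hsm := h.sm hσ
  have hK0 : 0 < K := by linarith
  have hJ0 : ∀ x y : Fin d → ZMod n, 0 ≤ tr J x y := fun x y => hsm.tr_nonneg x y
  have hBp := BB_pos (d := d) (σ := σ) (lam := lam) (t := t) hA
  have hR0 : 0 ≤ C / (1 - a) * BB d σ lam A t * K ^ (-ee d σ) := by positivity
  by_cases hcase : K' ≤ K
  · refine (mn_le_const hJ0 ht0.le 0 fun g => ?_).trans hR0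
    unfold win
    linarith [Pool.Agent.TH268.PD.mas_anti hcase g]
  rw [not_le] at hcase
  have hK'0 : 0 < K' := by linarith
  obtain ⟨I, hI1, hI2⟩ : ∃ I : ℕ, K' ≤ K * 2 ^ I ∧ ∀ j : ℕ, j < I → K * 2 ^ j ≤ K' := by
    have h1 : ∃ I : ℕ, K' ≤ K * 2 ^ I := by
      obtain ⟨I, hI⟩ := pow_unbounded_of_one_lt (K' / K) (show (1 : ℝ) < 2 by norm_num)
      refine ⟨I, ?_⟩
      rw [div_lt_iff₀ hK0] at hI
      linarith
    classical
    refine ⟨Nat.find h1, Nat.find_spec h1, fun j hj => ?_⟩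
    exact (not_le.1 (Nat.find_min h1 hj)).le
  have h1 : mn (tr J : (Fin d → ZMod n) → (Fin d → ZMod n) → ℝ) t (win K K') ≤
      mn (tr J : (Fin d → ZMod n) → (Fin d → ZMod n) → ℝ) t (fun g => ∑ j ∈ range I,
        win (K * 2 ^ j) (2 * (K * 2 ^ j)) g) := by
    refine mn_mono hJ0 ht0.le fun g => ?_
    rw [← win_dyadic]
    exact win_mono_right hI1 g
  refine h1.trans ?_
  rw [mn_sum]
  have hR1 := h.Rone
  have h2 : ∀ j ∈ range I, mn (tr J : (Fin d → ZMod n) → (Fin d → ZMod n) → ℝ) t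
      (win (K * 2 ^ j) (2 * (K * 2 ^ j))) ≤ C * BB d σ lam A t * K ^ (-ee d σ) * a ^ j := by
    intro j hj
    have hj' := Finset.mem_range.1 hj
    have h2j : (1 : ℝ) ≤ 2 ^ j := one_le_pow₀ (by norm_num)
    have h3 := H lam S R J h A t hA ht0 n (K * 2 ^ j) (by nlinarith) (by
      have h4 : (K * 2 ^ j) ^ qq d σ ≤ K' ^ qq d σ :=
        Real.rpow_le_rpow (by positivity) (hI2 j hj') hq.le
      have h5 : R * A * (K * 2 ^ j) ^ qq d σ ≤ R * A * K' ^ qq d σ :=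
        mul_le_mul_of_nonneg_left h4 (by positivity)
      linarith)
    refine h3.trans (le_of_eq ?_)
    rw [Real.mul_rpow hK0.le (by positivity), ha]
    have h5 : ((2 : ℝ) ^ j) ^ (-ee d σ) = ((2 : ℝ) ^ (-ee d σ)) ^ j := by
      rw [← Real.rpow_natCast, ← Real.rpow_natCast, ← Real.rpow_mul (by norm_num),
        ← Real.rpow_mul (by norm_num), mul_comm]
    rw [h5]
    ring
  refine (Finset.sum_le_sum h2).trans ?_
  rw [← Finset.mul_sum, geom_sum_eq ha1.ne]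
  have h3 : (a ^ I - 1) / (a - 1) ≤ 1 / (1 - a) := by
    have h4 : 0 < a ^ I := by positivity
    rw [← neg_div_neg_eq, div_le_div_iff₀ (by linarith) ha2]
    nlinarith
  refine (mul_le_mul_of_nonneg_left h3 (by positivity)).trans (le_of_eq ?_)
  field_simp

end

end Pool.Agent.N795.SO
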